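import Mathlib
import Pool.Agent.Helper379.TripleCos

set_option autoImplicit false

namespace Pool.Agent.Results.MP_6e4ab6_nt.CoprimeTo105

/-- Conditions 2 and 3 of the definition of an admissible symbol, for positive integers. -/
structure Basic (m s₁ t₁ s₂ t₂ s₃ t₃ : ℕ) : Prop where
  pos : 0 < s₁ ∧ 0 < t₁ ∧ 0 < s₂ ∧ 0 < t₂ ∧ 0 < s₃ ∧ 0 < t₃
  adjacent : s₁ ≠ t₁ ∧ t₁ ≠ s₂ ∧ s₂ ≠ t₂ ∧ t₂ ≠ s₃ ∧ s₃ ≠ t₃ ∧ t₃ ≠ s₁
  lt_half : 2 * s₁ < m ∧ 2 * t₁ < m ∧ 2 * s₂ < m ∧ 2 * t₂ < m ∧ 2 * s₃ < m ∧ 2 * t₃ < m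

/-- The symbol `(m; s₁, t₁, s₂, t₂, s₃, t₃)` is admissible (conditions 1 - 4). -/
structure Admissible (m s₁ t₁ s₂ t₂ s₃ t₃ : ℕ) : Prop extends Basic m s₁ t₁ s₂ t₂ s₃ t₃ where
  cos_eq : Real.cos (s₁ * Real.pi / m) * Real.cos (s₂ * Real.pi / m) * Real.cos (s₃ * Real.pi / m) =
    Real.cos (t₁ * Real.pi / m) * Real.cos (t₂ * Real.pi / m) * Real.cos (t₃ * Real.pi / m)
  even_sum : Even (s₁ + s₂ + s₃ + t₁ + t₂ + t₃)

/-- The trivial symbols `(b, c, d, b, c, d)`, `b, c, d` pairwise distinct. -/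
def IsTrivial (s₁ t₁ s₂ t₂ s₃ t₃ : ℕ) : Prop :=
  ∃ b c d : ℕ, b ≠ c ∧ c ≠ d ∧ b ≠ d ∧ s₁ = b ∧ t₁ = c ∧ s₂ = d ∧ t₂ = b ∧ s₃ = c ∧ t₃ = d

/-- Family (1): `m = 2q`, `S = {q - p, q - 2r, p}`, `T = {q - 2p, q - r, r}`. -/
def FamilyOne (m : ℕ) (S T : Multiset ℕ) : Prop :=
  ∃ p q r : ℕ, 0 < p ∧ 0 < r ∧ 2 * p < q ∧ 2 * r < q ∧ m = 2 * q ∧
    S = {q - p, q - 2 * r, p} ∧ T = {q - 2 * p, q - r, r}

theorem ms3 {α : Type} (a b c d e f : α) :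
    ({a, b, c} : Multiset α) = {d, e, f} ↔
    (a = d ∧ ((b = e ∧ c = f) ∨ (b = f ∧ c = e))) ∨
    (a = e ∧ ((b = d ∧ c = f) ∨ (b = f ∧ c = d))) ∨
    (a = f ∧ ((b = d ∧ c = e) ∨ (b = e ∧ c = d))) := by
  classical
  constructor
  · intro h
    have ha : a ∈ ({d, e, f} : Multiset α) := by rw [← h]; simp
    have two : ∀ {b c e f : α}, ({b, c} : Multiset α) = {e, f} → (b = e ∧ c = f) ∨ (b = f ∧ c = e) := by
      intro b c e f h2
      have hb : b ∈ ({e, f} : Multiset α) := by rw [← h2]; simp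
      simp only [Multiset.insert_eq_cons, Multiset.mem_cons, Multiset.mem_singleton] at hb
      rcases hb with rfl | rfl
      · left
        refine ⟨rfl, ?_⟩
        simpa using h2
      · right
        refine ⟨rfl, ?_⟩
        have h3 : ({b, c} : Multiset α) = {b, e} := by
          rw [h2]; exact Multiset.pair_comm _ _
        simpa using h3
    simp only [Multiset.insert_eq_cons, Multiset.mem_cons, Multiset.mem_singleton] at ha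
    rcases ha with rfl | rfl | rfl
    · left
      refine ⟨rfl, two ?_⟩
      exact (Multiset.cons_inj_right a).1 h
    · right; left
      refine ⟨rfl, two ?_⟩
      apply (Multiset.cons_inj_right a).1
      rw [show (a ::ₘ {b, c} : Multiset α) = {a, b, c} from rfl, h]
      exact Multiset.cons_swap _ _ _
    · right; right
      refine ⟨rfl, two ?_⟩
      apply (Multiset.cons_inj_right a).1
      rw [show (a ::ₘ {b, c} : Multiset α) = {a, b, c} from rfl, h]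
      show d ::ₘ e ::ₘ {a} = a ::ₘ d ::ₘ {e}
      rw [Multiset.cons_swap a d]
      congr 1
      exact Multiset.pair_comm e a
  · rintro (⟨rfl, ⟨rfl, rfl⟩ | ⟨rfl, rfl⟩⟩ | ⟨rfl, ⟨rfl, rfl⟩ | ⟨rfl, rfl⟩⟩ |
      ⟨rfl, ⟨rfl, rfl⟩ | ⟨rfl, rfl⟩⟩)
    · rfl
    · show a ::ₘ {b, c} = a ::ₘ {c, b}
      rw [Multiset.pair_comm]
    · show a ::ₘ b ::ₘ {c} = b ::ₘ a ::ₘ {c}
      exact Multiset.cons_swap _ _ _
    · show a ::ₘ {b, c} = c ::ₘ a ::ₘ {b}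
      rw [Multiset.cons_swap c a, Multiset.pair_comm]
      rfl
    · show a ::ₘ b ::ₘ {c} = b ::ₘ c ::ₘ {a}
      rw [Multiset.cons_swap a b]
      congr 1
      exact Multiset.pair_comm a c
    · show a ::ₘ b ::ₘ {c} = c ::ₘ b ::ₘ {a}
      rw [show (b ::ₘ {c} : Multiset α) = c ::ₘ {b} from Multiset.pair_comm b c,
        Multiset.cons_swap a c]
      congr 1
      exact Multiset.pair_comm a b

theorem prim (m : ℕ) (hm : 0 < m) :
    IsPrimitiveRoot (Complex.exp (Real.pi / m * Complex.I)) (2 * m) := by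
  have h := Complex.isPrimitiveRoot_exp (2 * m) (by omega)
  have e : Complex.exp (2 * Real.pi * Complex.I / ((2 * m : ℕ) : ℂ)) =
      Complex.exp (Real.pi / m * Complex.I) := by
    congr 1
    push_cast
    have : (m : ℂ) ≠ 0 := by exact_mod_cast hm.ne'
    field_simp
  rw [← e]
  exact h

theorem op_ge (m : ℕ) (hm : Nat.Coprime m 105) : ∀ p ∈ TC.op (2 * m), 11 ≤ p := by
  intro p hp
  unfold TC.op at hp
  rw [Finset.mem_erase] at hp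
  obtain ⟨hp2, hp⟩ := hp
  have hpp := Nat.prime_of_mem_primeFactors hp
  have hd := Nat.dvd_of_mem_primeFactors hp
  have hpm : p ∣ m := by
    rcases (Nat.Prime.dvd_mul hpp).1 hd with h | h
    · exact absurd ((Nat.prime_dvd_prime_iff_eq hpp Nat.prime_two).1 h) hp2
    · exact h
  have hn : ¬ p ∣ 105 := by
    intro h
    have := Nat.dvd_gcd hpm h
    rw [Nat.Coprime] at hm
    rw [hm] at this
    exact hpp.one_lt.ne' (Nat.dvd_one.1 this)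
  by_contra hlt
  push Not at hlt
  interval_cases p <;> first | (exact hn (by decide)) | (exact absurd hpp (by decide)) | omega

theorem forward (m s₁ t₁ s₂ t₂ s₃ t₃ : ℕ) (hm : Nat.Coprime m 105)
    (h : Admissible m s₁ t₁ s₂ t₂ s₃ t₃) :
    IsTrivial s₁ t₁ s₂ t₂ s₃ t₃ ∨ FamilyOne m {s₁, s₂, s₃} {t₁, t₂, t₃} := by
  obtain ⟨⟨⟨p1, p2, p3, p4, p5, p6⟩, ⟨a1, a2, a3, a4, a5, a6⟩, ⟨l1, l2, l3, l4, l5, l6⟩⟩, hc, -⟩ := h
  have hm0 : 0 < m := by omega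
  have hv := TC.vanish_of_cos m hm0 s₁ s₂ s₃ t₁ t₂ t₃ (by exact_mod_cast hc) _ rfl
  have hcount := TC.sym_balanced _ m hm0 _ (prim m hm0) (op_ge m hm) hv
  have hW := TC.W_of_counts m s₁ s₂ s₃ t₁ t₂ t₃ hcount
  have hC := TC.classify m s₁ s₂ s₃ t₁ t₂ t₃ ⟨by omega, by omega⟩ ⟨by omega, by omega⟩
    ⟨by omega, by omega⟩ ⟨by omega, by omega⟩ ⟨by omega, by omega⟩ ⟨by omega, by omega⟩ hW
  rcases hC with h1 | ⟨x1, x2, y1, y2, hx1, hy1, hx, hy, hqx, hqy, hS, hT⟩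
  · left
    rw [ms3] at h1
    refine ⟨s₁, t₁, s₂, ?_, ?_, ?_, rfl, rfl, rfl, ?_, ?_, ?_⟩ <;> omega
  · right
    obtain ⟨p, hp⟩ : ∃ p : ℕ, (p : ℤ) = x1 := ⟨x1.toNat, by omega⟩
    obtain ⟨q, hq⟩ : ∃ q : ℕ, (q : ℤ) = x1 + x2 := ⟨(x1 + x2).toNat, by omega⟩
    obtain ⟨r, hr⟩ : ∃ r : ℕ, (r : ℤ) = y1 := ⟨y1.toNat, by omega⟩
    have e1 : ((q - p : ℕ) : ℤ) = x2 := by omega
    have e2 : ((q - 2 * r : ℕ) : ℤ) = y2 - y1 := by omega
    have e3 : ((q - 2 * p : ℕ) : ℤ) = x2 - x1 := by omega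
    have e4 : ((q - r : ℕ) : ℤ) = y2 := by omega
    refine ⟨p, q, r, by omega, by omega, by omega, by omega, by omega, ?_, ?_⟩
    · have hS' : ({(s₁ : ℤ), (s₂ : ℤ), (s₃ : ℤ)} : Multiset ℤ) =
          {((q - p : ℕ) : ℤ), ((q - 2 * r : ℕ) : ℤ), (p : ℤ)} := by
        rw [e1, e2, hp, hS]
        exact congrArg (fun z => x2 ::ₘ z) (Multiset.pair_comm _ _)
      rw [ms3] at hS' ⊢
      exact_mod_cast hS'
    · have hT' : ({(t₁ : ℤ), (t₂ : ℤ), (t₃ : ℤ)} : Multiset ℤ) =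
          {((q - 2 * p : ℕ) : ℤ), ((q - r : ℕ) : ℤ), (r : ℤ)} := by
        rw [e3, e4, hr, hT, ms3]
        right; left
        exact ⟨rfl, Or.inr ⟨rfl, rfl⟩⟩
      rw [ms3] at hT' ⊢
      exact_mod_cast hT'

theorem cos_prod (f : ℕ → ℝ) (a b c : ℕ) :
    (({a, b, c} : Multiset ℕ).map f).prod = f a * f b * f c := by
  simp [mul_assoc]

theorem backward (m s₁ t₁ s₂ t₂ s₃ t₃ : ℕ) (hb : Basic m s₁ t₁ s₂ t₂ s₃ t₃)
    (h : IsTrivial s₁ t₁ s₂ t₂ s₃ t₃ ∨ FamilyOne m {s₁, s₂, s₃} {t₁, t₂, t₃}) :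
    Admissible m s₁ t₁ s₂ t₂ s₃ t₃ := by
  refine ⟨hb, ?_, ?_⟩
  · rcases h with ⟨b, c, d, -, -, -, rfl, rfl, rfl, rfl, rfl, rfl⟩ | ⟨p, q, r, hp, hr, hpq, hrq, hm, hS, hT⟩
    · ring
    · have e1 := cos_prod (fun x => Real.cos (x * Real.pi / m)) s₁ s₂ s₃
      have e2 := cos_prod (fun x => Real.cos (x * Real.pi / m)) t₁ t₂ t₃
      rw [hS, cos_prod] at e1
      rw [hT, cos_prod] at e2
      rw [← e1, ← e2]
      subst hm
      have hq : (q : ℝ) ≠ 0 := by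
        have : 0 < q := by omega
        exact_mod_cast this.ne'
      have := TC.cos_family p q r hq
      push_cast [Nat.cast_sub (show p ≤ q by omega), Nat.cast_sub (show 2 * r ≤ q by omega),
        Nat.cast_sub (show 2 * p ≤ q by omega), Nat.cast_sub (show r ≤ q by omega)]
      exact this
  · rcases h with ⟨b, c, d, -, -, -, h1, h2, h3, h4, h5, h6⟩ | ⟨p, q, r, hp, hr, hpq, hrq, hm, hS, hT⟩
    · exact ⟨b + c + d, by omega⟩
    · rw [ms3] at hS hT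
      rw [Nat.even_iff]
      omega

/-- For `m` coprime to `105` the admissible symbols are exactly the trivial ones and those of
family (1). -/
theorem result (m : ℕ) (hm : Nat.Coprime m 105) (s₁ t₁ s₂ t₂ s₃ t₃ : ℕ) :
    Admissible m s₁ t₁ s₂ t₂ s₃ t₃ ↔
      Basic m s₁ t₁ s₂ t₂ s₃ t₃ ∧
        (IsTrivial s₁ t₁ s₂ t₂ s₃ t₃ ∨ FamilyOne m {s₁, s₂, s₃} {t₁, t₂, t₃}) :=
  ⟨fun h => ⟨h.toBasic, forward m s₁ t₁ s₂ t₂ s₃ t₃ hm h⟩,
    fun h => backward m s₁ t₁ s₂ t₂ s₃ t₃ h.1 h.2⟩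

end Pool.Agent.Results.MP_6e4ab6_nt.CoprimeTo105
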